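import Pool.Agent.Helper5.BD.GDefs
import Pool.Agent.Helper81.BD.GP1
import Pool.Agent.Helper47.BD.GP2

/-!
# Module GR7: rerouting in general good drawings
-/

noncomputable section

open Finset Helper5.CR Classical Equiv Equiv.Perm

namespace Helper5.BD

variable {V E : Type} [Fintype E] {src tgt : E → V}

/-! ## Module GR7 -/
section GR7

/-- the statement of `exists_red` for all multigraphs with the vertex set `V` -/
def GR7_Red (V : Type) : Prop := ∀ (E : Type) (_ : Fintype E) (src tgt : E → V)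
    (P : PreDrawing src tgt), P.Simple →
    ∃ P' : PreDrawing src tgt, Red P' ∧ ∃ j : P.X → P'.X, Function.Injective j ∧
      ∀ e, ipts P' e = ((ipts P e).filter (fun x => decide (P.passes x = 2))).map j

/-- the statement of `reroute_red` for all multigraphs with the vertex set `V` -/
def GR7_Rr (V : Type) : Prop := ∀ (E : Type) (_ : Fintype E) (src tgt : E → V)
    (P : PreDrawing src tgt), P.Good → Red P →
    (∀ e, src e ≠ tgt e) → (∀ e, ipts P e ≠ []) → ∀ (F : Finset E) (g₁ g₂ : E → E)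
    (ap : E → V) (M : ℕ),
    (∀ f ∈ F, (src (g₁ f) = ap f ∧ tgt (g₁ f) = src f) ∨
      (src (g₁ f) = src f ∧ tgt (g₁ f) = ap f)) →
    (∀ f ∈ F, (src (g₂ f) = ap f ∧ tgt (g₂ f) = tgt f) ∨
      (src (g₂ f) = tgt f ∧ tgt (g₂ f) = ap f)) →
    (∀ v, (F.filter (fun f => ap f = v)).card ≤ M) →
    crM src tgt ≤ away P F + 5 * (8 * M + 2) ^ 2 *
      ∑ f ∈ F, ((ipts P (g₁ f)).length + (ipts P (g₂ f)).length + mdeg src tgt (ap f))

theorem GR7_passes (P : PreDrawing src tgt) (x : P.X) :
    P.passes x = ∑ e, (ipts P e).count x := rfl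

theorem GR7_thru (P : PreDrawing src tgt) (e : E) (x : P.X) : P.thru e x ↔ x ∈ ipts P e := Iff.rfl

theorem GR7_k_pos (P : PreDrawing src tgt) (hG : P.Good) (hne : ∀ e, src e ≠ tgt e) (e : E)
    (x : P.X) (hx : P.passes x = 2) (h : x ∈ ipts P e) : 0 < (P.toCSys hG hne).k e := by
  have h1 := (P.thru_iff hG ⟨x, hx⟩ e).1 h
  refine Finset.card_pos.2 ⟨⟨x, hx⟩, ?_⟩
  rw [mem_filter]
  refine ⟨mem_univ _, ?_⟩
  rcases h1 with h1 | h1
  · exact Or.inl h1.symm
  · exact Or.inr h1.symm

/-- the number of crossings on an edge, as the length of a list -/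
theorem GR7_k (P : PreDrawing src tgt) (hG : P.Good) (hne : ∀ e, src e ≠ tgt e) (e : E) :
    ((ipts P e).filter (fun x => decide (P.passes x = 2))).length = (P.toCSys hG hne).k e := by
  have hnd : ((ipts P e).filter (fun x => decide (P.passes x = 2))).Nodup :=
    (hG.self e).filter _
  rw [← List.toFinset_card_of_nodup hnd]
  symm
  refine Finset.card_bij (fun (x : P.X2) _ => x.1) ?_ ?_ ?_
  · intro x hx
    rw [mem_filter] at hx
    rw [List.mem_toFinset, List.mem_filter]
    refine ⟨(P.thru_iff hG x e).2 ?_, by simpa using x.2⟩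
    rcases hx.2 with h | h
    · exact Or.inl h.symm
    · exact Or.inr h.symm
  · intro x _ y _ h
    exact Subtype.ext h
  · intro x hx
    rw [List.mem_toFinset, List.mem_filter] at hx
    have h2 : P.passes x = 2 := by simpa using hx.2
    refine ⟨⟨x, h2⟩, ?_, rfl⟩
    rw [mem_filter]
    refine ⟨mem_univ _, ?_⟩
    rcases (P.thru_iff hG ⟨x, h2⟩ e).1 hx.1 with h | h
    · exact Or.inl h.symm
    · exact Or.inr h.symm

/-- GR7 (rerouting, general good drawings), with the modules GN3 and GR6 as hypotheses.  `C = P.toCSys hG hne`, only the crossed edges. Proof: pull `P`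
back to the subtype of the crossed edges (`exists_pull`), take the reduced drawing (`exists_red`),
apply `reroute_red`. The interior point lists of the reduced drawing are, up to an injection and
order, the lists of the crossings on the edges: their length is `C.k e` (`List.Nodup` from
`Good.self`), and `away` is the number of crossings with no edge in `F`. -/
theorem reroute_gen_of (hred : GR7_Red V) (hrr : GR7_Rr V) (P : PreDrawing src tgt) (hG : P.Good)
    (hne : ∀ e, src e ≠ tgt e) (F : Finset E) (g₁ g₂ : E → E) (ap : E → V) (M : ℕ)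
    (hF : ∀ f ∈ F, 0 < (P.toCSys hG hne).k f ∧ 0 < (P.toCSys hG hne).k (g₁ f) ∧
      0 < (P.toCSys hG hne).k (g₂ f))
    (h1 : ∀ f ∈ F, (src (g₁ f) = ap f ∧ tgt (g₁ f) = src f) ∨
      (src (g₁ f) = src f ∧ tgt (g₁ f) = ap f))
    (h2 : ∀ f ∈ F, (src (g₂ f) = ap f ∧ tgt (g₂ f) = tgt f) ∨
      (src (g₂ f) = tgt f ∧ tgt (g₂ f) = ap f))
    (hM : ∀ v, (F.filter (fun f => ap f = v)).card ≤ M) :
    crS src tgt (fun e => 0 < (P.toCSys hG hne).k e) ≤
      (univ.filter (fun x => P.ed₁ hG x ∉ F ∧ P.ed₂ hG x ∉ F)).card +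
      5 * (8 * M + 2) ^ 2 *
      ∑ f ∈ F, ((P.toCSys hG hne).k (g₁ f) + (P.toCSys hG hne).k (g₂ f) +
        (univ.filter (fun e => 0 < (P.toCSys hG hne).k e ∧ (src e = ap f ∨ tgt e = ap f))).card) := by
  obtain ⟨kk, hkk⟩ : ∃ kk : E → ℕ, kk = (P.toCSys hG hne).k := ⟨_, rfl⟩
  rw [← hkk] at hF ⊢
  have hkpos : ∀ (e : E) (x : P.X), P.passes x = 2 → x ∈ ipts P e → 0 < kk e := by
    intro e x hx h
    rw [hkk]
    exact GR7_k_pos P hG hne e x hx h
  have hklen : ∀ e, ((ipts P e).filter (fun x => decide (P.passes x = 2))).length = kk e := by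
    intro e
    rw [hkk]
    exact GR7_k P hG hne e
  obtain ⟨S, hS⟩ : ∃ S : E → Prop, S = fun e => 0 < kk e := ⟨_, rfl⟩
  have hSe : ∀ e, S e ↔ 0 < kk e := fun e => by rw [hS]
  rw [← hS]
  simp only [← hSe] at hF hkpos ⊢
  let src' : {e // S e} → V := fun e => src e.1
  let tgt' : {e // S e} → V := fun e => tgt e.1
  have hκ : Function.Injective (Subtype.val : {e // S e} → E) := Subtype.val_injective
  have hends : ∀ e : {e // S e}, (src' e = src e.1 ∧ tgt' e = tgt e.1) ∨
      (src' e = tgt e.1 ∧ tgt' e = src e.1) := fun e => Or.inl ⟨rfl, rfl⟩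
  obtain ⟨P₁, j₁, hj₁⟩ := exists_pull (src' := src') (tgt' := tgt') P hne Subtype.val hκ hends
  have hG₁ : P₁.Good := good_of_ipts P hG P₁ Subtype.val hκ hends j₁ j₁.injective
    (fun e => (hj₁ e).subperm)
  obtain ⟨P₂, hR₂, j₂, hj₂, hi₂⟩ := hred _ _ _ _ P₁ hG₁.simple
  -- passes
  have hp₁ : ∀ y : P.X, P₁.passes (j₁ y) = ∑ e : {e // S e}, (ipts P e.1).count y := by
    intro y
    rw [GR7_passes]
    refine Finset.sum_congr rfl fun e _ => ?_
    rw [(hj₁ e).count_eq, List.count_map_of_injective _ _ j₁.injective]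
  have hp₂ : ∀ y : P.X, P₁.passes (j₁ y) = 2 ↔ P.passes y = 2 := by
    intro y
    have e1 : P₁.passes (j₁ y) = ∑ e, if S e then (ipts P e).count y else 0 := by
      rw [hp₁]
      exact PreDrawing.sum_sub S (fun e => (ipts P e).count y)
    have e2 : P₁.passes (j₁ y) ≤ P.passes y := by
      rw [e1, GR7_passes]
      refine Finset.sum_le_sum fun e _ => ?_
      split_ifs
      · exact le_rfl
      · exact Nat.zero_le _
    constructor
    · intro h
      have := hG.simple y
      omega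
    · intro h
      rw [e1, ← h, GR7_passes]
      refine Finset.sum_congr rfl fun e _ => ?_
      split_ifs with hs
      · rfl
      · symm
        refine List.count_eq_zero.2 fun hm => hs (hkpos e y h hm)
  -- the lists of the reduced drawing
  have hlist : ∀ e : {e // S e}, ∃ l : List P.X, l.Perm ((ipts P e.1).filter
      (fun x => decide (P.passes x = 2))) ∧ ipts P₂ e = l.map (fun y => j₂ (j₁ y)) := by
    intro e
    refine ⟨((ipts P₁ e).map j₁.symm).filter (fun x => decide (P.passes x = 2)), ?_, ?_⟩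
    · refine List.Perm.filter _ ?_
      refine ((hj₁ e).map j₁.symm).trans ?_
      rw [List.map_map]
      simp
    · rw [hi₂ e, List.filter_map, List.map_map]
      have e3 : ((fun x => decide (P.passes x = 2)) ∘ j₁.symm) =
          fun x => decide (P₁.passes x = 2) := by
        funext x
        have e4 := hp₂ (j₁.symm x)
        rw [Equiv.apply_symm_apply] at e4
        simp only [Function.comp]
        exact (decide_eq_decide.2 e4).symm
      rw [e3]
      refine List.map_congr_left fun x _ => ?_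
      simp
  have hlen : ∀ e : {e // S e}, (ipts P₂ e).length = kk e.1 := by
    intro e
    obtain ⟨l, hl, hl2⟩ := hlist e
    rw [hl2, List.length_map, hl.length_eq, hklen]
  have hmem : ∀ (e : {e // S e}) (x : P₂.X), x ∈ ipts P₂ e ↔
      ∃ y : P.X, y ∈ ipts P e.1 ∧ P.passes y = 2 ∧ j₂ (j₁ y) = x := by
    intro e x
    obtain ⟨l, hl, hl2⟩ := hlist e
    rw [hl2, List.mem_map]
    constructor
    · rintro ⟨y, hy, hx⟩
      have := hl.mem_iff.1 hy
      rw [List.mem_filter] at this
      exact ⟨y, this.1, by simpa using this.2, hx⟩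
    · rintro ⟨y, hy, hy2, hx⟩
      refine ⟨y, hl.mem_iff.2 (List.mem_filter.2 ⟨hy, by simpa using hy2⟩), hx⟩
  have hG₂ : P₂.Good := by
    refine good_of_ipts P hG P₂ Subtype.val hκ hends (fun y => j₂ (j₁ y))
      (fun a b h => j₁.injective (hj₂ h)) ?_
    intro e
    obtain ⟨l, hl, hl2⟩ := hlist e
    rw [hl2]
    exact ((hl.map _).subperm).trans (List.Sublist.subperm (List.Sublist.map _ List.filter_sublist))
  -- the data
  let F' : Finset {e // S e} := univ.filter (fun e => e.1 ∈ F)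
  have hF' : ∀ e : {e // S e}, e ∈ F' ↔ e.1 ∈ F := fun e => by simp [F']
  let g₁' : {e // S e} → {e // S e} := fun e => if h : S (g₁ e.1) then ⟨g₁ e.1, h⟩ else e
  let g₂' : {e // S e} → {e // S e} := fun e => if h : S (g₂ e.1) then ⟨g₂ e.1, h⟩ else e
  have hg₁' : ∀ e ∈ F', (g₁' e).1 = g₁ e.1 := by
    intro e he
    show (if h : S (g₁ e.1) then (⟨g₁ e.1, h⟩ : {e // S e}) else e).1 = g₁ e.1
    rw [dif_pos (hF e.1 ((hF' e).1 he)).2.1]
  have hg₂' : ∀ e ∈ F', (g₂' e).1 = g₂ e.1 := by
    intro e he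
    show (if h : S (g₂ e.1) then (⟨g₂ e.1, h⟩ : {e // S e}) else e).1 = g₂ e.1
    rw [dif_pos (hF e.1 ((hF' e).1 he)).2.2]
  have hne' : ∀ e : {e // S e}, src' e ≠ tgt' e := fun e => hne e.1
  have hpos' : ∀ e : {e // S e}, ipts P₂ e ≠ [] := by
    intro e h
    have h3 := hlen e
    rw [h] at h3
    have h4 := (hSe e.1).1 e.2
    simp only [List.length_nil] at h3
    omega
  have key := hrr _ _ _ _ P₂ hG₂ hR₂ hne' hpos' F' g₁' g₂' (fun e => ap e.1) M
    (fun f hf => by
      show (src (g₁' f).1 = ap f.1 ∧ tgt (g₁' f).1 = src f.1) ∨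
        (src (g₁' f).1 = src f.1 ∧ tgt (g₁' f).1 = ap f.1)
      rw [hg₁' f hf]
      exact h1 f.1 ((hF' f).1 hf))
    (fun f hf => by
      show (src (g₂' f).1 = ap f.1 ∧ tgt (g₂' f).1 = tgt f.1) ∨
        (src (g₂' f).1 = tgt f.1 ∧ tgt (g₂' f).1 = ap f.1)
      rw [hg₂' f hf]
      exact h2 f.1 ((hF' f).1 hf))
    (fun v => by
      refine le_trans ?_ (hM v)
      refine Finset.card_le_card_of_injOn (fun e => e.1) ?_ (fun a _ b _ h => Subtype.ext h)
      intro e he
      have he2 := Finset.mem_filter.1 (Finset.mem_coe.1 he)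
      exact Finset.mem_coe.2 (Finset.mem_filter.2 ⟨(hF' e).1 he2.1, he2.2⟩))
  refine key.trans (Nat.add_le_add ?_ (Nat.mul_le_mul_left _ (le_of_eq ?_)))
  · -- crossings away from `F`
    unfold away
    rw [← Fintype.card_subtype, ← Nat.card_eq_fintype_card]
    have hex : ∀ x : {x : P₂.X // P₂.passes x = 2 ∧ ∀ f ∈ F', x ∉ ipts P₂ f},
        ∃ y : {y : P.X2 // P.ed₁ hG y ∉ F ∧ P.ed₂ hG y ∉ F}, j₂ (j₁ y.1.1) = x.1 := by
      rintro ⟨x, hx1, hx2⟩
      have h3 : ∃ e, x ∈ ipts P₂ e := by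
        by_contra hcon
        push Not at hcon
        rw [GR7_passes, Finset.sum_eq_zero (fun e _ => List.count_eq_zero.2 (hcon e))] at hx1
        exact absurd hx1 (by norm_num)
      obtain ⟨e, he⟩ := h3
      obtain ⟨y, hy1, hy2, hy3⟩ := (hmem e x).1 he
      have hno : ∀ f : E, y ∈ ipts P f → f ∉ F := by
        intro f hf hfF
        exact hx2 ⟨f, hkpos f y hy2 hf⟩ ((hF' _).2 hfF) ((hmem _ x).2 ⟨y, hf, hy2, hy3⟩)
      exact ⟨⟨⟨y, hy2⟩, hno _ (P.thru₁ hG ⟨y, hy2⟩), hno _ (P.thru₂ hG ⟨y, hy2⟩)⟩, hy3⟩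
    choose φ hφ using hex
    refine Nat.card_le_card_of_injective φ ?_
    intro x x' h
    have h3 := hφ x
    rw [h, hφ x'] at h3
    exact Subtype.ext h3.symm
  · -- the costs
    have hsum : ∀ G : E → ℕ, ∑ f ∈ F', G f.1 = ∑ f ∈ F, G f := by
      intro G
      have e1 : ∑ f ∈ F', G f.1 = ∑ f : {e // S e}, if f.1 ∈ F then G f.1 else 0 :=
        Finset.sum_filter _ _
      rw [e1, PreDrawing.sum_sub S (fun f => if f ∈ F then G f else 0)]
      have e2 : ∑ f ∈ F, G f = ∑ f, if f ∈ F then G f else 0 := by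
        rw [← Finset.sum_filter, Finset.filter_mem_eq_inter, Finset.univ_inter]
      rw [e2]
      refine Finset.sum_congr rfl fun f _ => ?_
      by_cases hf : f ∈ F
      · rw [if_pos (hF f hf).1]
      · rw [if_neg hf]
        split_ifs <;> rfl
    rw [← hsum (fun f => kk (g₁ f) + kk (g₂ f) +
      (univ.filter (fun e => S e ∧ (src e = ap f ∨ tgt e = ap f))).card)]
    refine Finset.sum_congr rfl fun f hf => ?_
    rw [hlen, hlen, hg₁' f hf, hg₂' f hf]
    congr 1
    unfold mdeg
    rw [Finset.card_filter, Finset.card_filter]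
    rw [show (∑ i : {e // S e}, if src' i = ap f.1 ∨ tgt' i = ap f.1 then 1 else 0) =
      ∑ i : {e // S e}, (fun e => if src e = ap f.1 ∨ tgt e = ap f.1 then 1 else 0) i.1 from rfl,
      PreDrawing.sum_sub S (fun e => if src e = ap f.1 ∨ tgt e = ap f.1 then 1 else 0)]
    refine Finset.sum_congr rfl fun e _ => ?_
    by_cases c1 : S e <;> by_cases c2 : (src e = ap f.1 ∨ tgt e = ap f.1) <;> simp [c1, c2]

end GR7

end Helper5.BD
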