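import Pool.Agent.Helper5.BD.GDefs

/-!
# Module GR2: a walk around a point in the wheel map
-/

noncomputable section

open Finset Helper5.CR Classical Equiv Equiv.Perm

namespace Helper5.BD

/-! ## Module GR2 -/
section GR2

/-- the derived comparison on a sum type is lawful (needed for `List.count`) -/
theorem sum_lawfulBEq (X D : Type) [BEq X] [BEq D] [LawfulBEq X] [LawfulBEq D] :
    LawfulBEq (X ⊕ D) where
  rfl := by
    intro a
    rcases a with a | a
    · show (a == a) = true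
      simp
    · show (a == a) = true
      simp
  eq_of_beq := by
    intro a b h
    rcases a with a | a <;> rcases b with b | b
    · have h1 : (a == b) = true := h
      rw [eq_of_beq h1]
    · exact absurd h Bool.false_ne_true
    · exact absurd h Bool.false_ne_true
    · have h1 : (a == b) = true := h
      rw [eq_of_beq h1]

/-- the first `j` points of the orbit -/
def GR2_orb {D : Type} (σ : Perm D) : ℕ → D → List D
  | 0, _ => []
  | j + 1, δ => δ :: GR2_orb σ j (σ δ)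

theorem GR2_mem_orb {D : Type} (σ : Perm D) (j : ℕ) (δ e : D) (h : e ∈ GR2_orb σ j δ) :
    ∃ i, i < j ∧ e = (σ ^ i) δ := by
  induction j generalizing δ with
  | zero => exact absurd h (List.not_mem_nil)
  | succ j ih =>
    rcases List.mem_cons.1 h with h1 | h1
    · exact ⟨0, by omega, by rw [h1]; rfl⟩
    · obtain ⟨i, h2, h3⟩ := ih (σ δ) h1
      refine ⟨i + 1, by omega, ?_⟩
      rw [h3, pow_succ, Perm.mul_apply]

theorem GR2_nodup_orb {D : Type} (σ : Perm D) (j : ℕ) (δ δ₂ : D) (h : (σ ^ j) δ = δ₂)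
    (hm : ∀ i, i < j → (σ ^ i) δ ≠ δ₂) : (GR2_orb σ j δ).Nodup := by
  induction j generalizing δ with
  | zero => exact List.nodup_nil
  | succ j ih =>
    refine List.nodup_cons.2 ⟨?_, ih (σ δ) ?_ ?_⟩
    · intro h1
      obtain ⟨i, h2, h3⟩ := GR2_mem_orb σ j (σ δ) δ h1
      have h4 : (σ ^ (i + 1)) δ = δ := by rw [pow_succ, Perm.mul_apply, ← h3]
      refine hm (j - i) (by omega) ?_
      rw [← h]
      have h5 : j + 1 = (j - i) + (i + 1) := by omega
      rw [h5, pow_add, Perm.mul_apply, h4]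
    · rw [← h, pow_succ, Perm.mul_apply]
    · intro i hi h1
      refine hm (i + 1) (by omega) ?_
      rw [pow_succ, Perm.mul_apply, h1]

/-- GR2 (around a point).  Proof: `δ₂ = σ^j δ₁` with the least `j`; the darts `(σ^i δ₁, 1)`, `i < j`; the
points `σ^i δ₁`, `i ≤ j`, are different; `σ δ = δ` for no `δ` on the way. -/
theorem wheel_ring {D X : Type} [Fintype D] {σ α : Perm D} {pt : D → X}
    (hpt : ∀ d d', pt d = pt d' ↔ σ.SameCycle d d') (σ' α' : Perm (D × Fin 5))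
    (hW : Wheel σ α pt σ' α') (δ₁ δ₂ : D) (h : pt δ₁ = pt δ₂) :
    ∃ l : List (D × Fin 5), IsWalk (wpt σ pt) α' (Sum.inr δ₁) (Sum.inr δ₂) l ∧ l.Nodup ∧
      (∀ b ∈ l, b.2 = 1 ∧ pt b.1 = pt δ₁) ∧ (∀ b ∈ l, wpt σ pt b ≠ wpt σ pt (α' b)) ∧
      (∀ x, (l.map (wpt σ pt)).count (Sum.inl x) = 0) ∧
      ∀ d, (l.map (wpt σ pt)).count (Sum.inr d) ≤ if pt d = pt δ₁ then 1 else 0 := by
  haveI : LawfulBEq (X ⊕ D) := sum_lawfulBEq X D
  have hex : ∃ j : ℕ, (σ ^ j) δ₁ = δ₂ := ((hpt _ _).1 h).exists_nat_pow_eq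
  obtain ⟨j, hj, hmin⟩ : ∃ j : ℕ, (σ ^ j) δ₁ = δ₂ ∧ ∀ i, i < j → (σ ^ i) δ₁ ≠ δ₂ :=
    ⟨Nat.find hex, Nat.find_spec hex, fun i hi => Nat.find_min hex hi⟩
  have w1 : ∀ d : D, wpt σ pt (d, 1) = Sum.inr d := fun d => by simp [wpt]
  have w3 : ∀ d : D, wpt σ pt (d, 3) = Sum.inr (σ d) := fun d => by simp [wpt]
  have a1 : ∀ d : D, α' (d, 1) = (d, 3) := fun d => by
    rw [hW.opp]
    simp [wa]
  have hwalk : ∀ (j : ℕ) (δ : D), (σ ^ j) δ = δ₂ →
      IsWalk (wpt σ pt) α' (Sum.inr δ) (Sum.inr δ₂)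
        ((GR2_orb σ j δ).map (fun d => (d, (1 : Fin 5)))) := by
    intro j
    induction j with
    | zero =>
      intro δ hδ
      show (Sum.inr δ : X ⊕ D) = Sum.inr δ₂
      rw [← hδ]; rfl
    | succ j ih =>
      intro δ hδ
      refine ⟨w1 δ, ?_⟩
      rw [a1, w3]
      exact ih (σ δ) (by rw [← hδ, pow_succ, Perm.mul_apply])
  have hnd := GR2_nodup_orb σ j δ₁ δ₂ hj hmin
  have hmap : ((GR2_orb σ j δ₁).map (fun d => (d, (1 : Fin 5)))).map (wpt σ pt) =
      (GR2_orb σ j δ₁).map Sum.inr := by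
    rw [List.map_map]
    exact List.map_congr_left (fun d _ => w1 d)
  have hpto : ∀ e ∈ GR2_orb σ j δ₁, pt e = pt δ₁ := by
    intro e he
    obtain ⟨i, _, hi⟩ := GR2_mem_orb σ j δ₁ e he
    exact ((hpt _ _).2 ⟨i, by rw [zpow_natCast, hi]⟩).symm
  refine ⟨(GR2_orb σ j δ₁).map (fun d => (d, (1 : Fin 5))), hwalk j δ₁ hj,
    hnd.map (fun a b hab => (Prod.ext_iff.1 hab).1), ?_, ?_, ?_, ?_⟩
  · intro b hb
    obtain ⟨d, hd, rfl⟩ := List.mem_map.1 hb
    exact ⟨rfl, hpto d hd⟩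
  · intro b hb
    obtain ⟨d, hd, rfl⟩ := List.mem_map.1 hb
    rw [a1, w1, w3]
    intro h1
    have h2 : d = σ d := Sum.inr_injective h1
    obtain ⟨i, hi, h3⟩ := GR2_mem_orb σ j δ₁ d hd
    refine hmin i hi ?_
    have h4 : ∀ m : ℕ, (σ ^ m) d = d := by
      intro m
      induction m with
      | zero => rfl
      | succ m ih => rw [pow_succ, Perm.mul_apply, ← h2, ih]
    rw [← h3, ← hj]
    have h5 : j = (j - i) + i := by omega
    rw [h5, pow_add, Perm.mul_apply, ← h3, h4]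
  · intro x
    rw [hmap]
    refine List.count_eq_zero.2 ?_
    intro h1
    obtain ⟨d, _, hd⟩ := List.mem_map.1 h1
    cases hd
  · intro d
    rw [hmap]
    split_ifs with h1
    · exact List.nodup_iff_count_le_one.1 (hnd.map Sum.inr_injective) _
    · refine (List.count_eq_zero.2 ?_).le
      intro h2
      obtain ⟨e, he, hd⟩ := List.mem_map.1 h2
      have h3 : e = d := Sum.inr_injective hd
      exact h1 (by rw [← h3]; exact hpto e he)

end GR2

end Helper5.BD
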