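import Pool.Agent.Helper5.BD.Defs
import Pool.Agent.Helper27.SG.Perturb

/-!
# Module C3: crossings with adjacent low ends, or with an arc from a top to the other low end
-/

noncomputable section

open Finset Helper5.CR Classical

namespace Helper5.BD

variable {V E X : Type} [Fintype V] [Fintype E] [Fintype X] {C : CSys V E X} {d : ℕ}

/-! ## Module C3 -/
section C3

theorem C3_count_bound (C : CSys V E X) (Q : Finset X) (F : E → Finset E) (k : ℕ)
    (hF : ∀ e, (F e).card ≤ k)
    (hQ : ∀ x ∈ Q, C.e₂ x ∈ F (C.e₁ x) ∨ C.e₁ x ∈ F (C.e₂ x)) :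
    Q.card ≤ k * Fintype.card E := by
  have h1 : Q.card ≤ ((univ : Finset E).sigma F).card := by
    refine Finset.card_le_card_of_injOn
      (fun x => if C.e₂ x ∈ F (C.e₁ x) then (⟨C.e₁ x, C.e₂ x⟩ : Σ _ : E, E) else
        ⟨C.e₂ x, C.e₁ x⟩) ?_ ?_
    · intro x hx
      have := hQ x hx
      simp only [Finset.coe_sigma, Set.mem_sigma_iff, Finset.mem_coe]
      split_ifs with h
      · exact ⟨mem_univ _, h⟩
      · exact ⟨mem_univ _, this.resolve_left h⟩
    · intro x _ y _ hxy
      apply C.once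
      simp only at hxy
      split_ifs at hxy with h2 h3 h3
      · rw [Sigma.mk.injEq] at hxy
        exact Or.inl ⟨hxy.1, eq_of_heq hxy.2⟩
      · rw [Sigma.mk.injEq] at hxy
        exact Or.inr ⟨hxy.1, eq_of_heq hxy.2⟩
      · rw [Sigma.mk.injEq] at hxy
        exact Or.inr ⟨eq_of_heq hxy.2, hxy.1⟩
      · rw [Sigma.mk.injEq] at hxy
        exact Or.inl ⟨eq_of_heq hxy.2, hxy.1⟩
  refine h1.trans ?_
  rw [Finset.card_sigma]
  refine (Finset.sum_le_card_nsmul _ _ k (fun e _ => hF e)).trans ?_
  rw [smul_eq_mul, mul_comm, Finset.card_univ]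

theorem C3_card_two (O : Ori C d) (u : V) :
    (univ.filter (fun f => O.arc u (O.lo f))).card ≤ d * d := by
  have h1 : (univ.filter (fun f => O.arc u (O.lo f))) ⊆
      (univ.filter (fun g => O.lo g = u)).biUnion
        (fun g => univ.filter (fun f => O.lo f = O.hi g)) := by
    intro f hf
    rw [mem_filter] at hf
    obtain ⟨g, hg1, hg2⟩ := hf.2
    rw [mem_biUnion]
    exact ⟨g, mem_filter.2 ⟨mem_univ _, hg1⟩, mem_filter.2 ⟨mem_univ _, hg2.symm⟩⟩
  refine (Finset.card_le_card h1).trans ?_
  refine (Finset.card_biUnion_le_card_mul _ _ d (fun g _ => O.out (O.hi g))).trans ?_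
  exact Nat.mul_le_mul_right _ (O.out u)

/-- C3.  Proof: for `x` with `N1`: charge `x` to the edge `e` whose low end `u` has the arc to the low
end `v` of the other edge `f`; given `e` there are at most `d` arcs `u → v` and at most `d` edges
`f` with `lo f = v` (`O.out`); `x` is determined by the pair of edges (`C.once`). Compare
`Helper27.SG.Sys.count_bound`, `card_by_ends`, `card_N1` (adapt). -/
theorem card_N1 (O : Ori C d) : Ori.cnt (fun x => O.N1 x) ≤ d * d * Fintype.card E := by
  unfold Ori.cnt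
  refine C3_count_bound C _ (fun e => univ.filter (fun f => O.arc (O.lo e) (O.lo f))) (d * d)
    (fun e => C3_card_two O (O.lo e)) ?_
  intro x hx
  rw [mem_filter] at hx
  rcases hx.2 with h | h
  · exact Or.inl (mem_filter.2 ⟨mem_univ _, h⟩)
  · exact Or.inr (mem_filter.2 ⟨mem_univ _, h⟩)

/-- C3.  Same proof with the top of `e`. -/
theorem card_N2 (O : Ori C d) : Ori.cnt (fun x => O.N2 x) ≤ d * d * Fintype.card E := by
  unfold Ori.cnt
  refine C3_count_bound C _ (fun e => univ.filter (fun f => O.arc (O.hi e) (O.lo f))) (d * d)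
    (fun e => C3_card_two O (O.hi e)) ?_
  intro x hx
  rw [mem_filter] at hx
  rcases hx.2 with h | h
  · exact Or.inl (mem_filter.2 ⟨mem_univ _, h⟩)
  · exact Or.inr (mem_filter.2 ⟨mem_univ _, h⟩)

end C3

end Helper5.BD
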