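import Pool.Agent.Helper9.BD.GR7
import Pool.Agent.Helper10.BD.GN1
import Pool.Agent.Helper97.BD.GN2
import Pool.Agent.Helper71.BD.GN3

/-!
# Reduced drawings exist (modules GN1, GN2, GN3 together)
-/

noncomputable section

open Finset Helper5.CR Classical Equiv Equiv.Perm

namespace Helper5.BD

variable {V E : Type} [Fintype E] {src tgt : E → V}

theorem exists_reduced (P : PreDrawing src tgt) :
    ∃ P' : PreDrawing src tgt, (∀ d, P'.Used d) ∧ ∃ j : P.X → P'.X, Function.Injective j ∧
      ∀ e, ipts P' e = ((ipts P e).filter (fun x => decide (2 ≤ P.passes x))).map j :=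
  exists_reduced_of (fun P hP => exists_drop P hP)
    (fun P hU e l₁ l₂ c b hr hb => exists_suppress P hU e l₁ l₂ c b hr hb) P

theorem exists_red (P : PreDrawing src tgt) (hs : P.Simple) :
    ∃ P' : PreDrawing src tgt, Red P' ∧ ∃ j : P.X → P'.X, Function.Injective j ∧
      ∀ e, ipts P' e = ((ipts P e).filter (fun x => decide (P.passes x = 2))).map j :=
  exists_red_of (fun P hP => exists_drop P hP)
    (fun P hU e l₁ l₂ c b hr hb => exists_suppress P hU e l₁ l₂ c b hr hb) P hs

theorem red_all (V : Type) : GR7_Red V := fun _ _ _ _ P hs => exists_red P hs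

end Helper5.BD
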