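import Pool.Agent.Helper5.BD.GDefs

/-!
# Module GA1: permutation maps, suppressing a point of degree two
-/

noncomputable section

open Finset Helper5.CR Classical Equiv Equiv.Perm

namespace Helper5.BD

/-! ## Module GA1 -/
section GA1

/-- GA1. number of cycles of an involution without fixed points -/
theorem two_mul_nc {D : Type} [Fintype D] (α : Perm D) (hα : ∀ d, α (α d) = d)
    (hne : ∀ d, α d ≠ d) : 2 * nc α = Nat.card D := by
  have hs : ∀ a b, α.SameCycle a b ↔ b = a ∨ b = α a := by
    intro a b
    constructor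
    · intro h
      let r : Setoid D :=
        { r := fun a b => b = a ∨ b = α a
          iseqv := by
            refine ⟨fun a => Or.inl rfl, ?_, ?_⟩
            · rintro a b (h | h)
              · exact Or.inl h.symm
              · exact Or.inr (by rw [h, hα])
            · rintro a b c (h | h) (h' | h')
              · exact Or.inl (h'.trans h)
              · exact Or.inr (by rw [h', h])
              · exact Or.inr (by rw [h', h])
              · exact Or.inl (by rw [h', h, hα]) }
      exact sameCycle_of_forall r (fun a => Or.inr rfl) h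
    · rintro (h | h)
      · rw [h]
      · rw [h]; exact ⟨1, by simp⟩
  have hq : ∀ q : Quotient (SameCycle.setoid α),
      (univ.filter (fun d : D => (Quotient.mk (SameCycle.setoid α) d) = q)).card = 2 := by
    intro q
    induction q using Quotient.inductionOn with
    | _ a =>
      have h1 : (univ.filter (fun d : D => (Quotient.mk (SameCycle.setoid α) d) =
          Quotient.mk (SameCycle.setoid α) a)) = {a, α a} := by
        ext d
        simp only [mem_filter, mem_univ, true_and, mem_insert, mem_singleton]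
        constructor
        · intro h
          have h2 : α.SameCycle a d := (Quotient.exact h).symm
          exact (hs a d).1 h2
        · intro h
          exact Quotient.sound (SameCycle.symm ((hs a d).2 h))
      rw [h1]
      exact Finset.card_pair (fun h => hne a h.symm)
  have h1 : Fintype.card D = ∑ q : Quotient (SameCycle.setoid α),
      (univ.filter (fun d : D => (Quotient.mk (SameCycle.setoid α) d) = q)).card :=
    Finset.card_eq_sum_card_fiberwise (fun _ _ => Finset.mem_coe.2 (mem_univ _))
  rw [Finset.sum_congr rfl (fun q _ => hq q)] at h1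
  rw [Finset.sum_const, Finset.card_univ, smul_eq_mul] at h1
  unfold nc
  rw [Nat.card_eq_fintype_card, Nat.card_eq_fintype_card, h1, mul_comm]

/-- GA1 (suppressing a point of degree two).  Proof: `σ'` is the restriction of `σ` (`{u, v}` is a
cycle), `α'` exchanges `α u` and `α v` and equals `α` elsewhere. Then
`nc σ' ≥ nc σ - 1`, `nc α' ≥ nc α - 1`, `nc (σ' * α') ≥ nc (σ * α)`: for `φ = σ * α`,
`φ (α u) = v`, `φ v = σ (α v) = φ' (α u)`, `φ (α v) = u`, `φ u = σ (α u) = φ' (α v)`, so
`d ↦ [d]_φ` is invariant under `φ'` and surjective. `ncomp σ' α' ≤ ncomp σ α`: the retraction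
`ρ u = α u`, `ρ v = α v`, `ρ d = d` maps `comp σ α` into `comp σ' α'`. `Nat.card` drops by `2`. -/
theorem planar_suppress {D : Type} [Fintype D] {σ α : Perm D} (hp : Planar σ α)
    (hα : ∀ d, α (α d) = d) (hne : ∀ d, α d ≠ d) (u v : D) (huv : u ≠ v) (h1 : σ u = v)
    (h2 : σ v = u) (h3 : α u ≠ v) :
    ∃ σ' α' : Perm {d : D // d ≠ u ∧ d ≠ v}, Planar σ' α' ∧ (∀ d, (σ' d).1 = σ d.1) ∧
      (∀ d, α' (α' d) = d) ∧ (∀ d, α' d ≠ d) ∧ (∀ d, d.1 = α u → (α' d).1 = α v) ∧
      (∀ d, d.1 = α v → (α' d).1 = α u) ∧
      ∀ d, d.1 ≠ α u → d.1 ≠ α v → (α' d).1 = α d.1 := by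
  have h4 : α v ≠ u := fun h => h3 (by rw [← h, hα])
  have hσu : ∀ d, σ d = u ↔ d = v := fun d => ⟨fun h => σ.injective (h.trans h2.symm),
    fun h => by rw [h, h2]⟩
  have hσv : ∀ d, σ d = v ↔ d = u := fun d => ⟨fun h => σ.injective (h.trans h1.symm),
    fun h => by rw [h, h1]⟩
  have hαi : ∀ d e, α d = e ↔ d = α e := fun d e => ⟨fun h => by rw [← h, hα],
    fun h => by rw [h, hα]⟩
  have hαinj : ∀ d e, α d = α e ↔ d = e := fun d e => α.injective.eq_iff
  -- the restriction of `σ`
  have hP : ∀ d, (σ d ≠ u ∧ σ d ≠ v) ↔ (d ≠ u ∧ d ≠ v) := by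
    intro d
    rw [ne_eq, ne_eq, hσu, hσv]
    tauto
  let σ' : Perm {d : D // d ≠ u ∧ d ≠ v} := σ.subtypePerm hP
  have hσ' : ∀ d, (σ' d).1 = σ d.1 := fun d => rfl
  -- the new involution
  let f : D → D := fun d => if d = α u then α v else if d = α v then α u else α d
  have hf1 : f (α u) = α v := if_pos rfl
  have hvu : α v ≠ α u := fun h => huv ((hαinj _ _).1 h).symm
  have hf2 : f (α v) = α u := by
    show (if α v = α u then α v else if α v = α v then α u else α (α v)) = α u
    rw [if_neg hvu, if_pos rfl]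
  have hf3 : ∀ d, d ≠ α u → d ≠ α v → f d = α d := by
    intro d hd1 hd2
    show (if d = α u then α v else if d = α v then α u else α d) = α d
    rw [if_neg hd1, if_neg hd2]
  have hfP : ∀ d, (d ≠ u ∧ d ≠ v) → (f d ≠ u ∧ f d ≠ v) := by
    intro d hd
    by_cases c1 : d = α u
    · rw [c1, hf1]
      exact ⟨h4, hne v⟩
    by_cases c2 : d = α v
    · rw [c2, hf2]
      exact ⟨hne u, h3⟩
    rw [hf3 d c1 c2]
    exact ⟨fun h => c1 ((hαi _ _).1 h), fun h => c2 ((hαi _ _).1 h)⟩
  have hff : ∀ d, (d ≠ u ∧ d ≠ v) → f (f d) = d := by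
    intro d hd
    by_cases c1 : d = α u
    · rw [c1, hf1, hf2]
    by_cases c2 : d = α v
    · rw [c2, hf2, hf1]
    rw [hf3 d c1 c2, hf3 (α d) (fun h => hd.1 ((hαinj _ _).1 h)) (fun h => hd.2 ((hαinj _ _).1 h)),
      hα]
  let α' : Perm {d : D // d ≠ u ∧ d ≠ v} :=
    { toFun := fun d => ⟨f d.1, hfP d.1 d.2⟩
      invFun := fun d => ⟨f d.1, hfP d.1 d.2⟩
      left_inv := fun d => Subtype.ext (hff d.1 d.2)
      right_inv := fun d => Subtype.ext (hff d.1 d.2) }
  have hα' : ∀ d, (α' d).1 = f d.1 := fun d => rfl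
  have hinv : ∀ d, α' (α' d) = d := fun d => Subtype.ext (hff d.1 d.2)
  have hne' : ∀ d, α' d ≠ d := by
    intro d h
    have h5 : f d.1 = d.1 := congrArg Subtype.val h
    by_cases c1 : d.1 = α u
    · rw [c1, hf1] at h5
      exact hvu h5
    by_cases c2 : d.1 = α v
    · rw [c2, hf2] at h5
      exact hvu h5.symm
    rw [hf3 _ c1 c2] at h5
    exact hne _ h5
  refine ⟨σ', α', ?_, hσ', hinv, hne', ?_, ?_, ?_⟩
  · -- cardinality
    have hcard : Nat.card D = Nat.card {d : D // d ≠ u ∧ d ≠ v} + 2 := by
      have e1 : (univ.filter (fun d : D => d ≠ u ∧ d ≠ v)) = univ \ {u, v} := by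
        ext d
        simp only [mem_filter, mem_univ, true_and, mem_sdiff, mem_insert, mem_singleton]
        tauto
      have e2 : (univ.filter (fun d : D => d ≠ u ∧ d ≠ v)).card + 2 = Fintype.card D := by
        rw [e1, ← Finset.card_pair huv, Finset.card_sdiff_add_card_eq_card (subset_univ _),
          Finset.card_univ]
      rw [Nat.card_eq_fintype_card, Nat.card_eq_fintype_card, Fintype.card_subtype, e2]
    -- cycles of `σ'`
    have c1 : nc σ ≤ nc σ' + 1 := by
      have hw : ∀ a b : {d : D // d ≠ u ∧ d ≠ v}, σ'.SameCycle a b → σ.SameCycle a.1 b.1 := by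
        intro a b h
        exact sameCycle_of_forall (Setoid.comap Subtype.val (SameCycle.setoid σ))
          (fun a => (show σ.SameCycle a.1 (σ' a).1 from ⟨1, by rw [hσ']; simp⟩)) h
      have e : Nat.card (Option (Quotient (SameCycle.setoid σ'))) = nc σ' + 1 := by
        unfold nc
        exact Finite.card_option
      rw [← e]
      unfold nc
      refine Nat.card_le_card_of_surjective
        (fun o : Option (Quotient (SameCycle.setoid σ')) => match o with
          | none => Quotient.mk (SameCycle.setoid σ) u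
          | some q => Quotient.lift (s := SameCycle.setoid σ')
              (fun d => Quotient.mk (SameCycle.setoid σ) d.1)
              (fun a b h => Quotient.sound (hw a b h)) q) ?_
      intro q
      induction q using Quotient.inductionOn with
      | _ d =>
        by_cases d1 : d = u
        · exact ⟨none, by rw [d1]⟩
        by_cases d2 : d = v
        · refine ⟨none, ?_⟩
          rw [d2]
          exact Quotient.sound (show σ.SameCycle u v from ⟨1, by simp [h1]⟩)
        · exact ⟨some (Quotient.mk _ ⟨d, d1, d2⟩), rfl⟩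
    -- cycles of `α'`
    have c2 := two_mul_nc α hα hne
    have c3 := two_mul_nc α' hinv hne'
    -- faces
    have c4 : nc (σ * α) ≤ nc (σ' * α') := by
      refine le_nc_of_surj (σ' * α')
        (fun d => Quotient.mk (SameCycle.setoid (σ * α)) d.1) ?_ ?_
      · intro d
        refine Quotient.sound (SameCycle.symm ?_)
        show (σ * α).SameCycle d.1 (σ (f d.1))
        by_cases d1 : d.1 = α u
        · rw [d1, hf1]
          refine ⟨2, ?_⟩
          show ((σ * α) ^ (2 : ℤ)) (α u) = σ (α v)
          rw [zpow_ofNat, pow_two, Perm.mul_apply, Perm.mul_apply, Perm.mul_apply, hα, h1]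
        by_cases d2 : d.1 = α v
        · rw [d2, hf2]
          refine ⟨2, ?_⟩
          show ((σ * α) ^ (2 : ℤ)) (α v) = σ (α u)
          rw [zpow_ofNat, pow_two, Perm.mul_apply, Perm.mul_apply, Perm.mul_apply, hα, h2]
        rw [hf3 _ d1 d2]
        exact ⟨1, by simp⟩
      · intro q
        induction q using Quotient.inductionOn with
        | _ d =>
          by_cases d1 : d = u
          · refine ⟨⟨σ (α u), ?_, ?_⟩, ?_⟩
            · rw [ne_eq, hσu]; exact h3
            · rw [ne_eq, hσv]; exact hne u
            · refine Quotient.sound (SameCycle.symm ?_)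
              rw [d1]
              exact (show (σ * α).SameCycle u (σ (α u)) from ⟨1, by simp⟩)
          by_cases d2 : d = v
          · refine ⟨⟨σ (α v), ?_, ?_⟩, ?_⟩
            · rw [ne_eq, hσu]; exact hne v
            · rw [ne_eq, hσv]; exact h4
            · refine Quotient.sound (SameCycle.symm ?_)
              rw [d2]
              exact (show (σ * α).SameCycle v (σ (α v)) from ⟨1, by simp⟩)
          · exact ⟨⟨d, d1, d2⟩, rfl⟩
    -- components
    have c5 : ncomp σ' α' ≤ ncomp σ α := by
      let ρ : D → {d : D // d ≠ u ∧ d ≠ v} := fun d =>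
        if hu : d = u then ⟨α u, hne u, h3⟩ else if hv : d = v then ⟨α v, h4, hne v⟩
        else ⟨d, hu, hv⟩
      have r1 : ρ u = ⟨α u, hne u, h3⟩ := dif_pos rfl
      have r2 : ρ v = ⟨α v, h4, hne v⟩ := by
        show (if hu : v = u then (⟨α u, hne u, h3⟩ : {d : D // d ≠ u ∧ d ≠ v}) else
          if hv : v = v then ⟨α v, h4, hne v⟩ else ⟨v, hu, hv⟩) = _
        rw [dif_neg huv.symm, dif_pos rfl]
      have r3 : ∀ d (hd : d ≠ u ∧ d ≠ v), ρ d = ⟨d, hd⟩ := by
        intro d hd
        show (if hu : d = u then (⟨α u, hne u, h3⟩ : {d : D // d ≠ u ∧ d ≠ v}) else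
          if hv : d = v then ⟨α v, h4, hne v⟩ else ⟨d, hu, hv⟩) = _
        rw [dif_neg hd.1, dif_neg hd.2]
      have r1' : ρ (α u) = ⟨α u, hne u, h3⟩ := r3 _ ⟨hne u, h3⟩
      have r2' : ρ (α v) = ⟨α v, h4, hne v⟩ := r3 _ ⟨h4, hne v⟩
      have k1 : comp σ' α' ⟨α u, hne u, h3⟩ ⟨α v, h4, hne v⟩ := by
        refine comp_of_alpha ⟨1, ?_⟩
        rw [zpow_one]
        exact Subtype.ext hf1
      have k2 : comp σ' α' ⟨α v, h4, hne v⟩ ⟨α u, hne u, h3⟩ := by
        refine comp_of_alpha ⟨1, ?_⟩
        rw [zpow_one]
        exact Subtype.ext hf2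
      have hle : comp σ α ≤ Setoid.comap ρ (comp σ' α') := by
        unfold comp
        refine sup_le ?_ ?_
        · intro a b hab
          refine sameCycle_of_forall (Setoid.comap ρ (comp σ' α')) ?_ hab
          intro a
          show comp σ' α' (ρ a) (ρ (σ a))
          by_cases d1 : a = u
          · rw [d1, h1, r1, r2]; exact k1
          by_cases d2 : a = v
          · rw [d2, h2, r1, r2]; exact k2
          rw [r3 a ⟨d1, d2⟩, r3 (σ a) ((hP a).2 ⟨d1, d2⟩)]
          refine comp_of_sigma ⟨1, ?_⟩
          rw [zpow_one]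
          rfl
        · intro a b hab
          refine sameCycle_of_forall (Setoid.comap ρ (comp σ' α')) ?_ hab
          intro a
          show comp σ' α' (ρ a) (ρ (α a))
          by_cases d1 : a = u
          · rw [d1, r1, r1']
          by_cases d2 : a = v
          · rw [d2, r2, r2']
          by_cases d3 : a = α u
          · rw [d3, hα, r1, r1']
          by_cases d4 : a = α v
          · rw [d4, hα, r2, r2']
          have q1 : α a ≠ u ∧ α a ≠ v :=
            ⟨fun h => d3 ((hαi _ _).1 h), fun h => d4 ((hαi _ _).1 h)⟩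
          rw [r3 a ⟨d1, d2⟩, r3 (α a) q1]
          refine comp_of_alpha ⟨1, ?_⟩
          rw [zpow_one]
          exact Subtype.ext (hf3 a d3 d4)
      unfold ncomp
      refine Nat.card_le_card_of_surjective
        (Quotient.lift (s := comp σ α) (fun d => Quotient.mk (comp σ' α') (ρ d))
          (fun a b h => Quotient.sound (hle h))) ?_
      intro q
      induction q using Quotient.inductionOn with
      | _ d =>
        refine ⟨Quotient.mk _ d.1, ?_⟩
        show Quotient.mk (comp σ' α') (ρ d.1) = Quotient.mk (comp σ' α') d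
        rw [r3 d.1 d.2]
    have c6 := euler_le σ' α'
    unfold Planar at hp ⊢
    omega
  · intro d hd
    rw [hα', hd, hf1]
  · intro d hd
    rw [hα', hd, hf2]
  · intro d hd1 hd2
    rw [hα', hf3 _ hd1 hd2]

end GA1

end Helper5.BD
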