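import Pool.Agent.Helper9.BD.Red
import Pool.Agent.Helper92.BD.GR6

/-!
# Module GR7: rerouting in general good drawings (final form)
-/

noncomputable section

open Finset Helper5.CR Classical Equiv Equiv.Perm

namespace Helper5.BD

variable {V E : Type} [Fintype E] {src tgt : E → V}

/-- GR7 (rerouting, general good drawings). -/
theorem reroute_gen [Fintype V] (P : PreDrawing src tgt) (hG : P.Good)
    (hne : ∀ e, src e ≠ tgt e) (F : Finset E) (g₁ g₂ : E → E) (ap : E → V) (M : ℕ)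
    (hF : ∀ f ∈ F, 0 < (P.toCSys hG hne).k f ∧ 0 < (P.toCSys hG hne).k (g₁ f) ∧
      0 < (P.toCSys hG hne).k (g₂ f))
    (h1 : ∀ f ∈ F, (src (g₁ f) = ap f ∧ tgt (g₁ f) = src f) ∨
      (src (g₁ f) = src f ∧ tgt (g₁ f) = ap f))
    (h2 : ∀ f ∈ F, (src (g₂ f) = ap f ∧ tgt (g₂ f) = tgt f) ∨
      (src (g₂ f) = tgt f ∧ tgt (g₂ f) = ap f))
    (hM : ∀ v, (F.filter (fun f => ap f = v)).card ≤ M) :
    crS src tgt (fun e => 0 < (P.toCSys hG hne).k e) ≤
      (univ.filter (fun x => P.ed₁ hG x ∉ F ∧ P.ed₂ hG x ∉ F)).card +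
      5 * (8 * M + 2) ^ 2 *
      ∑ f ∈ F, ((P.toCSys hG hne).k (g₁ f) + (P.toCSys hG hne).k (g₂ f) +
        (univ.filter (fun e => 0 < (P.toCSys hG hne).k e ∧ (src e = ap f ∨ tgt e = ap f))).card) :=
  reroute_gen_of (red_all V)
    (fun _ _ _ _ P hG hR hne hpos F g₁ g₂ ap M h1 h2 hM =>
      reroute_red P hG hR hne hpos F g₁ g₂ ap M h1 h2 hM) P hG hne F g₁ g₂ ap M hF h1 h2 hM

end Helper5.BD
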